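import Pool.Agent.J4H61.QB.Final

set_option autoImplicit false

/-!
# The norm hierarchy of random quantum channels (question Q1)

For all `d, d_E, t, k ≥ 1` the squared Hilbert-Schmidt norm `N_{t,k}(d, d_E)` of the `k`-th power of
the `t`-th moment operator of `cHaar(d, d_E)` lies between that of the completely depolarizing
channel, which is `1`, and that of the Haar ensemble of unitary channels.
-/

namespace Pool.Agent.Results.MP_a4cf75_mp.NormHierarchy

open Matrix MeasureTheory Pool.Agent.V11219.MomentOp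

/-- The unitary channel `X ↦ U X U†` on `M_d`. -/
noncomputable def unitaryChannel {d : ℕ} (U : Matrix.unitaryGroup (Fin d) ℂ) :
    Mat d →ₗ[ℂ] Mat d where
  toFun X := (U : Mat d) * X * (U : Mat d)ᴴ
  map_add' X Y := by rw [Matrix.mul_add, Matrix.add_mul]
  map_smul' c X := by simp

/-- The completely depolarizing channel `X ↦ Tr(X) 1 / d` on `M_d`. -/
noncomputable def depolarizing (d : ℕ) : Mat d →ₗ[ℂ] Mat d where
  toFun X := (X.trace / d) • 1
  map_add' X Y := by rw [Matrix.trace_add, add_div, add_smul]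
  map_smul' c X := by simp [mul_div_assoc, smul_smul]

/-- Question Q1: for all `d, d_E, t, k ≥ 1` and every unit vector `ψ` of the environment,
`1 = ‖T_Dep‖² ≤ N_{t,k}(d, d_E) ≤ ‖T_Haar‖²`. -/
theorem result (t k d dE : ℕ) (ψ : Fin dE → ℂ) (hd : 1 ≤ d) (hk : 1 ≤ k)
    (hψ : ∑ x, ‖ψ x‖ ^ 2 = 1) :
    hsNormSq (tensorPow t (depolarizing d)) = 1 ∧
    1 ≤ N t k d dE ψ ∧
    N t k d dE ψ ≤ hsNormSq (momentOp (haarU (Fin d)) t (fun U => unitaryChannel U)) :=
  ⟨(Pool.Agent.J4H61.QB.low t k d dE ψ hd hψ).1, (Pool.Agent.J4H61.QB.low t k d dE ψ hd hψ).2,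
    Pool.Agent.J4H61.QB.upper t k d dE ψ hk hψ⟩

end Pool.Agent.Results.MP_a4cf75_mp.NormHierarchy
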